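import Pool.Agent.W206.YP.Stm
import Pool.Agent.W206.CT.E1

set_option autoImplicit false

namespace Pool.Agent.W397.YP.L1

open MvPolynomial Pool.Agent.W206.YP

theorem hcomp {σ A : Type} [Field A] [Algebra Qb A] (z : σ → A) (p q : σ)
    (F : MvPolynomial (Fin 2) Qb) :
    aeval z (aeval ![(X p : MvPolynomial σ Qb), X q] F : MvPolynomial σ Qb) =
      aeval ![z p, z q] F := by
  rw [MvPolynomial.comp_aeval_apply]
  congr 2
  funext i
  fin_cases i <;> simp

open Classical in
/-- the gate polynomial -/
noncomputable def gp {G : Type} (κ : G → Bool) (g : G) : MvPolynomial (G × Fin 3) Qb :=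
  X (g, 2) - if κ g then X (g, 0) + X (g, 1) else X (g, 0) * X (g, 1)

open Classical in
theorem grad_gp {G : Type} (κ : G → Bool) (g : G) (ω : G × Fin 3 → ℂ) (p : G × Fin 3) :
    aeval ω (pderiv p (gp κ g)) =
      (if (g, (2 : Fin 3)) = p then 1 else 0) -
        (if κ g then 1 else ω (g, 1)) * (if (g, (0 : Fin 3)) = p then 1 else 0) -
        (if κ g then 1 else ω (g, 0)) * (if (g, (1 : Fin 3)) = p then 1 else 0) := by
  have hX : ∀ q : G × Fin 3, aeval ω (pderiv p (X q : MvPolynomial (G × Fin 3) Qb)) =
      (if q = p then (1 : ℂ) else 0) := by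
    intro q
    rw [pderiv_X]
    by_cases h : q = p
    · subst h
      simp
    · rw [Pi.single_eq_of_ne h, if_neg h, map_zero]
  unfold gp
  by_cases hk : κ g
  · simp only [hk, if_true, map_sub, map_add, hX]
    ring
  · simp only [hk, map_sub, pderiv_mul, map_add, map_mul, hX, aeval_X]
    simp only [Bool.false_eq_true, if_false, map_sub, pderiv_mul, map_add, map_mul, hX, aeval_X]
    ring

theorem main (hE : Pool.Agent.W206.YP.S_EQV) : Pool.Agent.W206.YP.S_L1 := by
  classical
  intro hTRC hCMA G V _ _ κ nd u hiso hcm htr hgate hli L' _ _ ω' hat hspec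
  obtain ⟨hgate', m, T, htr', hrel, hcard⟩ := hat
  have key : ∀ t : T, ∃ s : G × Fin 3, s ∉ T ∧ nd t = nd s ∧ ω' t = ω' s := by
    rintro ⟨t, ht⟩
    rcases hrel t ht with ⟨c, hc, hct⟩ | ⟨s, hs, F, hF, hF0⟩
    · exfalso
      have h1 := hspec (X t - C c) (by
        rw [map_sub, aeval_X, hct]
        simp [algebraMap_eq]
        )
      rw [map_sub, aeval_X, sub_eq_zero] at h1
      have h2 : u (nd t) = (c : ℂ) := by
        rw [h1]
        simp [algebraMap_eq]
      exact hcm (nd t) (by rw [h2]; exact hc)
    · have hts : t ≠ s := fun h => hs (h ▸ ht)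
      have hFm := hF
      obtain ⟨N, hN, hFN⟩ := hFm
      have h1 : aeval ![u (nd t), u (nd s)] F = 0 := by
        have := hspec (aeval ![(X t : MvPolynomial (G × Fin 3) Qb), X s] F)
          (by rw [hcomp]; exact hF0)
        rw [hcomp] at this
        exact this
      have h2 : Iso (u (nd t)) (u (nd s)) := ⟨N, hN, (hFN _ _).1 h1⟩
      have hnd : nd t = nd s := by
        by_contra hne
        exact hiso _ _ hne h2
      have hFne : F ≠ 0 := by
        intro h0
        have h3 : IsoN N 0 (u (nd t)) := (hFN _ _).1 (by rw [h0, map_zero])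
        exact hcm (nd t) (hE.2.2.2.2 0 (u (nd t)) ⟨N, hN, h3⟩ hCMA.2)
      obtain ⟨e, Q, hFQ, hQ⟩ := hTRC F (u (nd t)) hFne (htr t s hts hnd)
      refine ⟨s, hs, hnd, ?_⟩
      have h4 : aeval ![ω' t, ω' s] Q ≠ 0 := by
        intro h0
        have h5 := hspec (aeval ![(X t : MvPolynomial (G × Fin 3) Qb), X s] Q)
          (by rw [hcomp]; exact h0)
        rw [hcomp] at h5
        apply hQ
        rw [← hnd] at h5
        exact h5
      have h6 : (ω' t - ω' s) ^ e * aeval ![ω' t, ω' s] Q = 0 := by
        rw [hFQ, map_mul, map_pow, map_sub, aeval_X, aeval_X] at hF0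
        simpa using hF0
      have h7 := (mul_eq_zero.1 h6).resolve_right h4
      have he : e ≠ 0 := by
        rintro rfl
        simp at h7
      exact sub_eq_zero.1 ((pow_eq_zero_iff he).1 h7)
  choose s hs hnd hωs using key
  -- the polynomials
  let f0 : (T ⊕ G) → MvPolynomial (G × Fin 3) Qb :=
    Sum.elim (fun t => X (t : G × Fin 3) - X (s t)) (gp κ)
  have hf0 : ∀ i, aeval ω' (f0 i) = 0 := by
    rintro (t | g)
    · show aeval ω' (X (t : G × Fin 3) - X (s t)) = 0
      rw [map_sub, aeval_X, aeval_X, hωs t, sub_self]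
    · show aeval ω' (gp κ g) = 0
      have := hgate' g
      unfold gp
      by_cases hk : κ g
      · simp only [hk, if_true] at this
        simp [hk, this]
      · simp only [hk, Bool.false_eq_true, if_false] at this
        simp [hk, this]
  set ω : G × Fin 3 → ℂ := fun p => u (nd p) with hω
  have hX : ∀ p q : G × Fin 3, aeval ω (pderiv p (X q : MvPolynomial (G × Fin 3) Qb)) =
      (if q = p then (1 : ℂ) else 0) := by
    intro p q
    rw [pderiv_X]
    by_cases h : q = p
    · subst h
      simp
    · rw [Pi.single_eq_of_ne h, if_neg h, map_zero]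
  have hlin0 : LinearIndependent ℂ (fun i : T ⊕ G => fun p : G × Fin 3 =>
      aeval ω (pderiv p (f0 i))) := by
    rw [Fintype.linearIndependent_iff]
    intro c hc
    have hc' : ∀ p : G × Fin 3, ∑ t : T, c (Sum.inl t) *
        ((if (t : G × Fin 3) = p then (1 : ℂ) else 0) - (if s t = p then 1 else 0)) +
        ∑ g : G, c (Sum.inr g) * aeval ω (pderiv p (gp κ g)) = 0 := by
      intro p
      have h1 := congrFun hc p
      rw [Finset.sum_apply, Fintype.sum_sum_type] at h1
      rw [Pi.zero_apply] at h1
      refine Eq.trans ?_ h1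
      congr 1
      refine Finset.sum_congr rfl fun t _ => ?_
      show _ = c (Sum.inl t) • aeval ω (pderiv p (X (t : G × Fin 3) - X (s t)))
      rw [map_sub, map_sub, hX, hX, smul_eq_mul]
    have hβ : ∀ g, c (Sum.inr g) = 0 := by
      refine Fintype.linearIndependent_iff.1 hli (fun g => c (Sum.inr g)) ?_
      funext v
      rw [Finset.sum_apply, Pi.zero_apply]
      have h2 : ∑ p : G × Fin 3, (if nd p = v then (1 : ℂ) else 0) *
          (∑ t : T, c (Sum.inl t) *
          ((if (t : G × Fin 3) = p then (1 : ℂ) else 0) - (if s t = p then 1 else 0)) +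
          ∑ g : G, c (Sum.inr g) * aeval ω (pderiv p (gp κ g))) = 0 :=
        Finset.sum_eq_zero fun p _ => by rw [hc' p, mul_zero]
      have hdelta : ∀ q : G × Fin 3, ∑ p : G × Fin 3, (if nd p = v then (1 : ℂ) else 0) *
          (if q = p then (1 : ℂ) else 0) = if nd q = v then 1 else 0 := by
        intro q
        simp only [mul_ite, mul_one, mul_zero]
        rw [Finset.sum_ite_eq Finset.univ q]
        simp
      have h3 : ∑ p : G × Fin 3, (if nd p = v then (1 : ℂ) else 0) *
          (∑ t : T, c (Sum.inl t) *
          ((if (t : G × Fin 3) = p then (1 : ℂ) else 0) - (if s t = p then 1 else 0))) = 0 := by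
        simp only [Finset.mul_sum]
        rw [Finset.sum_comm]
        refine Finset.sum_eq_zero fun t _ => ?_
        have : ∀ p : G × Fin 3, (if nd p = v then (1 : ℂ) else 0) * (c (Sum.inl t) *
            ((if (t : G × Fin 3) = p then (1 : ℂ) else 0) - (if s t = p then 1 else 0))) =
            c (Sum.inl t) * ((if nd p = v then (1 : ℂ) else 0) *
              (if (t : G × Fin 3) = p then (1 : ℂ) else 0)) -
            c (Sum.inl t) * ((if nd p = v then (1 : ℂ) else 0) *
              (if s t = p then (1 : ℂ) else 0)) := by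
          intro p; ring
        rw [Finset.sum_congr rfl fun p _ => this p, Finset.sum_sub_distrib, ← Finset.mul_sum,
          ← Finset.mul_sum, hdelta, hdelta, hnd t, sub_self]
      have h4 : ∑ p : G × Fin 3, (if nd p = v then (1 : ℂ) else 0) *
          (∑ g : G, c (Sum.inr g) * aeval ω (pderiv p (gp κ g))) =
          ∑ g : G, c (Sum.inr g) * gr κ nd u g v := by
        simp only [Finset.mul_sum]
        rw [Finset.sum_comm]
        refine Finset.sum_congr rfl fun g _ => ?_
        have : ∀ p : G × Fin 3, (if nd p = v then (1 : ℂ) else 0) *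
            (c (Sum.inr g) * aeval ω (pderiv p (gp κ g))) =
            c (Sum.inr g) * ((if nd p = v then (1 : ℂ) else 0) *
              (if (g, (2 : Fin 3)) = p then (1 : ℂ) else 0)) -
            c (Sum.inr g) * (if κ g then 1 else ω (g, 1)) *
              ((if nd p = v then (1 : ℂ) else 0) *
              (if (g, (0 : Fin 3)) = p then (1 : ℂ) else 0)) -
            c (Sum.inr g) * (if κ g then 1 else ω (g, 0)) *
              ((if nd p = v then (1 : ℂ) else 0) *
              (if (g, (1 : Fin 3)) = p then (1 : ℂ) else 0)) := by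
          intro p
          rw [grad_gp]
          ring
        rw [Finset.sum_congr rfl fun p _ => this p, Finset.sum_sub_distrib,
          Finset.sum_sub_distrib, ← Finset.mul_sum, ← Finset.mul_sum, ← Finset.mul_sum,
          hdelta, hdelta, hdelta]
        unfold gr
        rw [hω]
        ring
      simp only [mul_add] at h2
      rw [Finset.sum_add_distrib, h3, zero_add, h4] at h2
      refine Eq.trans ?_ h2
      refine Finset.sum_congr rfl fun g _ => ?_
      rw [Pi.smul_apply, smul_eq_mul]
    rintro (t | g)
    · have h5 := hc' (t : G × Fin 3)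
      have h6 : ∑ g : G, c (Sum.inr g) * aeval ω (pderiv (t : G × Fin 3) (gp κ g)) = 0 :=
        Finset.sum_eq_zero fun g _ => by rw [hβ g, zero_mul]
      rw [h6, add_zero] at h5
      have h7 : ∀ t' : T, c (Sum.inl t') *
          ((if (t' : G × Fin 3) = (t : G × Fin 3) then (1 : ℂ) else 0) -
            (if s t' = (t : G × Fin 3) then 1 else 0)) =
          if t' = t then c (Sum.inl t') else 0 := by
        intro t'
        have h8 : s t' ≠ (t : G × Fin 3) := fun h => hs t' (by rw [h]; exact t.2)
        rw [if_neg h8, sub_zero]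
        by_cases h9 : t' = t
        · subst h9; simp
        · rw [if_neg h9, if_neg (fun h => h9 (Subtype.ext h)), mul_zero]
      rw [Finset.sum_congr rfl fun t' _ => h7 t', Finset.sum_ite_eq'] at h5
      simpa using h5
    · exact hβ g
  have e := Fintype.equivFin (T ⊕ G)
  have hr : Fintype.card (T ⊕ G) = T.card + Fintype.card G := by
    rw [Fintype.card_sum, Fintype.card_coe]
  have hlin : LinearIndependent ℂ (fun i : Fin (Fintype.card (T ⊕ G)) =>
      fun j : G × Fin 3 => aeval ω (pderiv j (f0 (e.symm i)))) :=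
    hlin0.comp e.symm e.symm.injective
  have hfin := Pool.Agent.W206.CT.E1.gen Qb (G × Fin 3) ℂ L' (Fintype.card (T ⊕ G)) m ω ω' hspec
    (fun i => f0 (e.symm i)) (fun i => hf0 _) hlin htr'
  rw [hr, Fintype.card_prod, Fintype.card_fin] at hfin
  omega

end Pool.Agent.W397.YP.L1
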